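import Mathlib
set_option autoImplicit false

/-! Decomposition data for compact subsets of the line without isolated points. -/

namespace Pool.Agent.R221.TS

open Set Filter Topology MeasureTheory

/-- compact and without isolated points -/
def Gd (P : Set ℝ) : Prop := IsCompact P ∧ Preperfect P

/-- `Q` is a relatively clopen subset of `P` -/
def Clp (P Q : Set ℝ) : Prop := IsClosed Q ∧ IsClosed (P \ Q) ∧ Q ⊆ P

lemma Clp.gd {P Q : Set ℝ} (hP : Gd P) (h : Clp P Q) : Gd Q := by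
  refine ⟨hP.1.of_isClosed_subset h.1 h.2.2, ?_⟩
  intro x hx
  have h1 := hP.2 x (h.2.2 hx)
  rw [accPt_iff_frequently] at h1 ⊢
  have h2 : ∀ᶠ y in 𝓝 x, y ∈ (P \ Q)ᶜ := h.2.1.isOpen_compl.mem_nhds (fun hc => hc.2 hx)
  refine (h1.and_eventually h2).mono ?_
  rintro y ⟨⟨h3, h4⟩, h5⟩
  refine ⟨h3, ?_⟩
  by_contra h6
  exact h5 ⟨h4, h6⟩

lemma Clp.empty {P : Set ℝ} (hP : IsClosed P) : Clp P ∅ := by
  refine ⟨isClosed_empty, ?_, empty_subset _⟩
  rwa [diff_empty]

lemma Clp.diff {P Q R : Set ℝ} (h : Clp P Q) (h' : Clp P R) : Clp P (Q \ R) := by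
  refine ⟨?_, ?_, diff_subset.trans h.2.2⟩
  · have : Q \ R = Q ∩ (P \ R) := by
      ext x
      constructor
      · rintro ⟨h1, h2⟩
        exact ⟨h1, h.2.2 h1, h2⟩
      · rintro ⟨h1, _, h2⟩
        exact ⟨h1, h2⟩
    rw [this]
    exact h.1.inter h'.2.1
  · have : P \ (Q \ R) = (P \ Q) ∪ R := by
      ext x
      constructor
      · rintro ⟨h1, h2⟩
        by_cases hx : x ∈ R
        · exact Or.inr hx
        · left
          exact ⟨h1, fun hq => h2 ⟨hq, hx⟩⟩
      · rintro (⟨h1, h2⟩ | h1)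
        · exact ⟨h1, fun h3 => h2 h3.1⟩
        · exact ⟨h'.2.2 h1, fun h3 => h3.2 h1⟩
    rw [this]
    exact h.2.1.union h'.1

lemma clp_Ioo {P : Set ℝ} (hP : IsClosed P) {p q : ℝ} (hp : p ∉ P) (hq : q ∉ P) :
    Clp P (P ∩ Ioo p q) := by
  refine ⟨?_, ?_, inter_subset_left⟩
  · have : P ∩ Ioo p q = P ∩ Icc p q := by
      ext x
      constructor
      · rintro ⟨h1, h2⟩
        exact ⟨h1, h2.1.le, h2.2.le⟩
      · rintro ⟨h1, h2⟩
        refine ⟨h1, lt_of_le_of_ne h2.1 ?_, lt_of_le_of_ne h2.2 ?_⟩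
        · rintro rfl; exact hp h1
        · rintro rfl; exact hq h1
    rw [this]
    exact hP.inter isClosed_Icc
  · have : P \ (P ∩ Ioo p q) = P ∩ (Ioo p q)ᶜ := by
      ext x
      simp only [mem_diff, mem_inter_iff, not_and, mem_compl_iff]
      tauto
    rw [this]
    exact hP.inter isOpen_Ioo.isClosed_compl

/-- the maximal interval of `P` around `x` -/
lemma comp {P : Set ℝ} (hP : IsCompact P) {x : ℝ} (hx : x ∈ P) :
    ∃ c d : ℝ, c ≤ x ∧ x ≤ d ∧ Icc c d ⊆ P ∧ (∀ ε > 0, ∃ p, c - ε < p ∧ p < c ∧ p ∉ P) ∧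
      (∀ ε > 0, ∃ q, d < q ∧ q < d + ε ∧ q ∉ P) := by
  obtain ⟨B, hB⟩ := hP.isBounded.subset_closedBall 0
  have hbd : ∀ y ∈ P, |y| ≤ B := fun y hy => by
    have := hB hy
    rwa [Metric.mem_closedBall, dist_zero_right, Real.norm_eq_abs] at this
  -- left end
  have left : ∃ c ≤ x, Icc c x ⊆ P ∧ (∀ ε > 0, ∃ p, c - ε < p ∧ p < c ∧ p ∉ P) := by
    set A : Set ℝ := {u | u ≤ x ∧ Icc u x ⊆ P} with hA
    have hAx : x ∈ A := ⟨le_rfl, by rw [Icc_self]; simpa using hx⟩
    have hAb : BddBelow A := ⟨-B, fun u hu => (abs_le.1 (hbd u (hu.2 ⟨le_rfl, hu.1⟩))).1⟩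
    have hcx : sInf A ≤ x := csInf_le hAb hAx
    have hsub : Ioc (sInf A) x ⊆ P := by
      intro y hy
      obtain ⟨u, hu, huy⟩ := exists_lt_of_csInf_lt ⟨x, hAx⟩ hy.1
      exact hu.2 ⟨huy.le, hy.2⟩
    have hsub' : Icc (sInf A) x ⊆ P := by
      rcases hcx.eq_or_lt with h | h
      · rw [h, Icc_self]; simpa using hx
      · rw [← closure_Ioc h.ne]
        exact closure_minimal hsub hP.isClosed
    refine ⟨sInf A, hcx, hsub', ?_⟩
    intro ε hε
    by_contra hcon
    push Not at hcon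
    have h1 : sInf A - ε / 2 ∈ A := by
      refine ⟨by linarith, ?_⟩
      intro y hy
      rcases lt_or_ge y (sInf A) with h | h
      · exact hcon y (by linarith [hy.1]) h
      · exact hsub' ⟨h, hy.2⟩
    have := csInf_le hAb h1
    linarith
  have right : ∃ d ≥ x, Icc x d ⊆ P ∧ (∀ ε > 0, ∃ q, d < q ∧ q < d + ε ∧ q ∉ P) := by
    set A : Set ℝ := {u | x ≤ u ∧ Icc x u ⊆ P} with hA
    have hAx : x ∈ A := ⟨le_rfl, by rw [Icc_self]; simpa using hx⟩
    have hAb : BddAbove A := ⟨B, fun u hu => (abs_le.1 (hbd u (hu.2 ⟨hu.1, le_rfl⟩))).2⟩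
    have hcx : x ≤ sSup A := le_csSup hAb hAx
    have hsub : Ico x (sSup A) ⊆ P := by
      intro y hy
      obtain ⟨u, hu, huy⟩ := exists_lt_of_lt_csSup ⟨x, hAx⟩ hy.2
      exact hu.2 ⟨hy.1, huy.le⟩
    have hsub' : Icc x (sSup A) ⊆ P := by
      rcases hcx.eq_or_lt with h | h
      · rw [← h, Icc_self]; simpa using hx
      · rw [← closure_Ico h.ne]
        exact closure_minimal hsub hP.isClosed
    refine ⟨sSup A, hcx, hsub', ?_⟩
    intro ε hε
    by_contra hcon
    push Not at hcon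
    have h1 : sSup A + ε / 2 ∈ A := by
      refine ⟨by linarith, ?_⟩
      intro y hy
      rcases le_or_gt y (sSup A) with h | h
      · exact hsub' ⟨hy.1, h⟩
      · exact hcon y h (by linarith [hy.2])
    have := le_csSup hAb h1
    linarith
  obtain ⟨c, hc, hc2, hc3⟩ := left
  obtain ⟨d, hd, hd2, hd3⟩ := right
  refine ⟨c, d, hc, hd, ?_, hc3, hd3⟩
  intro y hy
  rcases le_total y x with h | h
  · exact hc2 ⟨hy.1, h⟩
  · exact hd2 ⟨h, hy.2⟩

lemma exists_rat {P : Set ℝ} (hP : IsClosed P) {u v p : ℝ} (h1 : u < p) (h2 : p < v) (h3 : p ∉ P) :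
    ∃ r : ℚ, u < r ∧ (r : ℝ) < v ∧ (r : ℝ) ∉ P := by
  obtain ⟨r, hr⟩ := Rat.denseRange_cast.exists_mem_open (isOpen_Ioo.inter hP.isOpen_compl)
    ⟨p, ⟨h1, h2⟩, h3⟩
  exact ⟨r, hr.1.1, hr.1.2, hr.2⟩

/-- the pieces of the complement of a maximal interval of almost maximal length -/
lemma pieces {P : Set ℝ} (hP : Gd P) (hI : ∃ u v : ℝ, u < v ∧ Icc u v ⊆ P) :
    ∃ (a b : ℝ) (pc : ℕ → Set ℝ), a < b ∧ Icc a b ⊆ P ∧ (∀ j, Clp P (pc j)) ∧
      (∀ i j, i ≠ j → Disjoint (pc i) (pc j)) ∧ (∀ x ∈ P, (∀ i, x ∉ pc i) ↔ x ∈ Icc a b) ∧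
      (∀ j, pc j ⊆ Iio a ∨ pc j ⊆ Ioi b) ∧
      (∀ j, ∀ x ∈ pc j, ∀ x' ∈ pc j, |x - x'| ≤ 3 * (b - a)) := by
  classical
  have hPc := hP.1.isClosed
  set S : Set ℝ := {l | 0 ≤ l ∧ ∃ u, Icc u (u + l) ⊆ P} with hS
  have hSb : BddAbove S := by
    refine ⟨Metric.diam P, ?_⟩
    rintro l ⟨hl, u, hu⟩
    have h1 : u ∈ P := hu ⟨le_rfl, by linarith⟩
    have h2 : u + l ∈ P := hu ⟨by linarith, le_rfl⟩
    have := Metric.dist_le_diam_of_mem hP.1.isBounded h1 h2
    rwa [Real.dist_eq, show u - (u + l) = -l by ring, abs_neg, abs_of_nonneg hl] at this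
  obtain ⟨u0, v0, huv, hI0⟩ := hI
  have hmem0 : v0 - u0 ∈ S := ⟨by linarith, u0, by rwa [add_sub_cancel]⟩
  have hL0 : 0 < sSup S := lt_of_lt_of_le (by linarith) (le_csSup hSb hmem0)
  obtain ⟨l, ⟨hl0, u, hul⟩, hlL⟩ := exists_lt_of_lt_csSup ⟨_, hmem0⟩
    (show sSup S / 2 < sSup S by linarith)
  have hl : 0 < l := by linarith
  obtain ⟨a, b, hau, hub, hab, hga, hgb⟩ := comp hP.1 (hul ⟨le_rfl, by linarith⟩ : u ∈ P)
  have hlb : u + l ≤ b := by
    by_contra hcon
    push Not at hcon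
    obtain ⟨q, h1, h2, h3⟩ := hgb (u + l - b) (by linarith)
    exact h3 (hul ⟨by linarith, by linarith⟩)
  have hba : sSup S / 2 < b - a := by linarith
  have hablt : a < b := by linarith
  -- good pairs
  let e : ℕ ≃ ℚ × ℚ := (Denumerable.eqv (ℚ × ℚ)).symm
  let Good : ℚ × ℚ → Prop := fun r => (r.1 : ℝ) ∉ P ∧ (r.2 : ℝ) ∉ P ∧
    (r.2 : ℝ) - r.1 ≤ 3 * (b - a) ∧ ((r.2 : ℝ) < a ∨ b < r.1)
  let U : ℕ → Set ℝ := fun n => if Good (e n) then P ∩ Ioo ((e n).1 : ℝ) ((e n).2 : ℝ) else ∅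
  have hUclp : ∀ n, Clp P (U n) := by
    intro n
    by_cases h : Good (e n)
    · simp only [U, if_pos h]
      exact clp_Ioo hPc h.1 h.2.1
    · simp only [U, if_neg h]
      exact Clp.empty hPc
  have hpcU : ∀ n, disjointed U n ⊆ U n := fun n => disjointed_subset U n
  have hpcclp : ∀ n, Clp P (disjointed U n) := fun n =>
    disjointedRec (p := Clp P) (fun t i ht => ht.diff (hUclp i)) (hUclp n)
  have hside : ∀ n, U n ⊆ Iio a ∨ U n ⊆ Ioi b := by
    intro n
    by_cases h : Good (e n)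
    · simp only [U, if_pos h]
      rcases h.2.2.2 with h1 | h1
      · left
        rintro x ⟨_, hx⟩
        exact hx.2.trans h1
      · right
        rintro x ⟨_, hx⟩
        exact h1.trans hx.1
    · left
      simp only [U, if_neg h]
      exact empty_subset _
  have hdiam : ∀ n, ∀ x ∈ U n, ∀ x' ∈ U n, |x - x'| ≤ 3 * (b - a) := by
    intro n x hx x' hx'
    by_cases h : Good (e n)
    · simp only [U, if_pos h] at hx hx'
      have h1 := h.2.2.1
      rw [abs_le]
      constructor <;> linarith [hx.2.1, hx.2.2, hx'.2.1, hx'.2.2]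
    · simp only [U, if_neg h] at hx
      exact absurd hx (notMem_empty _)
  -- covering
  have hcov : ∀ x ∈ P, x ∉ Icc a b → ∃ n, x ∈ U n := by
    intro x hx hxab
    obtain ⟨c, d, hcx, hxd, hcd, hgc, hgd⟩ := comp hP.1 hx
    have hcdS : d - c ∈ S := ⟨by linarith, c, by rwa [add_sub_cancel]⟩
    have hcdL := le_csSup hSb hcdS
    have key : ∃ r : ℚ × ℚ, Good r ∧ x ∈ Ioo (r.1 : ℝ) (r.2 : ℝ) := by
      by_cases hxa : x < a
      · have hda : d < a := by
          by_contra hcon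
          push Not at hcon
          obtain ⟨p, h1, h2, h3⟩ := hga (a - x) (by linarith)
          exact h3 (hcd ⟨by linarith, by linarith⟩)
        obtain ⟨p, hp1, hp2, hp3⟩ := hgc ((b - a) / 2) (by linarith)
        obtain ⟨q, hq1, hq2, hq3⟩ := hgd (min ((b - a) / 2) (a - d))
          (lt_min (by linarith) (by linarith))
        obtain ⟨p', hp1', hp2', hp3'⟩ := exists_rat hPc hp1 hp2 hp3
        obtain ⟨q', hq1', hq2', hq3'⟩ := exists_rat hPc hq1 hq2 hq3
        have h1 := min_le_left ((b - a) / 2) (a - d)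
        have h2 := min_le_right ((b - a) / 2) (a - d)
        refine ⟨(p', q'), ⟨hp3', hq3', ?_, Or.inl ?_⟩, ?_, ?_⟩
        · simp only; linarith
        · simp only; linarith
        · simp only; linarith
        · simp only; linarith
      · have hxb : b < x := by
          by_contra hcon
          exact hxab ⟨not_lt.1 hxa, not_lt.1 hcon⟩
        have hcb : b < c := by
          by_contra hcon
          push Not at hcon
          obtain ⟨q, h1, h2, h3⟩ := hgb (x - b) (by linarith)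
          exact h3 (hcd ⟨by linarith, by linarith⟩)
        obtain ⟨p, hp1, hp2, hp3⟩ := hgc (min ((b - a) / 2) (c - b))
          (lt_min (by linarith) (by linarith))
        obtain ⟨q, hq1, hq2, hq3⟩ := hgd ((b - a) / 2) (by linarith)
        obtain ⟨p', hp1', hp2', hp3'⟩ := exists_rat hPc hp1 hp2 hp3
        obtain ⟨q', hq1', hq2', hq3'⟩ := exists_rat hPc hq1 hq2 hq3
        have h1 := min_le_left ((b - a) / 2) (c - b)
        have h2 := min_le_right ((b - a) / 2) (c - b)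
        refine ⟨(p', q'), ⟨hp3', hq3', ?_, Or.inr ?_⟩, ?_, ?_⟩
        · simp only; linarith
        · simp only; linarith
        · simp only; linarith
        · simp only; linarith
    obtain ⟨r, hr, hxr⟩ := key
    refine ⟨e.symm r, ?_⟩
    have he : e (e.symm r) = r := e.apply_symm_apply r
    simp only [U, he, if_pos hr]
    exact ⟨hx, hxr⟩
  refine ⟨a, b, disjointed U, hablt, hab, hpcclp, fun i j hij => disjoint_disjointed U hij, ?_, ?_, ?_⟩
  · intro x hx
    constructor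
    · intro h
      by_contra hcon
      obtain ⟨n, hn⟩ := hcov x hx hcon
      have h1 : x ∈ ⋃ n, disjointed U n := by
        rw [iUnion_disjointed]
        exact mem_iUnion.2 ⟨n, hn⟩
      obtain ⟨i, hi⟩ := mem_iUnion.1 h1
      exact h i hi
    · intro h i hi
      rcases hside i with h1 | h1
      · exact absurd (h1 (hpcU i hi)) (not_lt.2 h.1)
      · exact absurd (h1 (hpcU i hi)) (not_lt.2 h.2)
  · intro j
    rcases hside j with h1 | h1
    · exact Or.inl ((hpcU j).trans h1)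
    · exact Or.inr ((hpcU j).trans h1)
  · intro j x hx x' hx'
    exact hdiam j x (hpcU j hx) x' (hpcU j hx')

end Pool.Agent.R221.TS
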