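import Mathlib
import Pool.Agent.R221.TS.Data
set_option autoImplicit false

/-! The data of the recursion for every compact set without isolated points. -/

namespace Pool.Agent.R221.TS

open Set Filter Topology MeasureTheory

/-- potential -/
noncomputable def Phi (P : Set ℝ) : ℝ := (volume P).toReal + Metric.diam P

lemma Phi_nonneg (P : Set ℝ) : 0 ≤ Phi P := add_nonneg ENNReal.toReal_nonneg Metric.diam_nonneg

structure Dat where
  pc : ℕ → Set ℝ
  sc : ℕ → ℝ
  of : ℕ → ℝ
  co : ℝ → ℝ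

/-- first type: there is an interval -/
structure TypJ (P : Set ℝ) (D : Dat) : Prop where
  int : ∃ u v : ℝ, u < v ∧ Icc u v ⊆ P
  out : ∀ y ∈ Icc (0 : ℝ) 3, ∃ x ∈ P, (∀ i, x ∉ D.pc i) ∧ D.co x = y
  rng : ∀ x ∈ P, (∀ i, x ∉ D.pc i) → D.co x ∈ Icc (0 : ℝ) 3
  sc : ∀ j, D.sc j = (1 / 100) ^ (j + 1)
  of : ∀ j, D.of j = -50 * D.sc j ∨ D.of j = 3 + 50 * D.sc j

/-- second type: there is no interval -/
structure TypC (P : Set ℝ) (D : Dat) : Prop where
  noI : ∀ u v : ℝ, u < v → ¬ Icc u v ⊆ P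
  un : ∀ x ∈ P, x ∈ D.pc 0 ∨ x ∈ D.pc 1
  ne0 : P.Nonempty → (D.pc 0).Nonempty
  ne1 : P.Nonempty → (D.pc 1).Nonempty
  sc0 : D.sc 0 = 1 / 100
  sc1 : D.sc 1 = 1 / 100
  of0 : D.of 0 = 0
  of1 : D.of 1 = 1

structure IsDat (P : Set ℝ) (D : Dat) : Prop where
  clp : ∀ j, Clp P (D.pc j)
  disj : ∀ i j, i ≠ j → Disjoint (D.pc i) (D.pc j)
  sc0 : ∀ j, 0 < D.sc j
  sc1 : ∀ j, D.sc j ≤ 1 / 100
  co_cont : Continuous D.co
  co_bd : ∀ x, |D.co x| ≤ 4
  bd : ∀ j y, |y| ≤ 4 → |D.of j + D.sc j * y| ≤ 4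
  near : ∀ j x y, x ∈ D.pc j → |y| ≤ 4 → |D.of j + D.sc j * y - D.co x| ≤ 200 * (1 / 100) ^ j
  sep : ∀ i j x x' y y', i ≠ j → x ∈ D.pc i → x' ∈ D.pc j → |y| ≤ 4 → |y'| ≤ 4 →
    D.of i + D.sc i * y ≠ D.of j + D.sc j * y'
  sepc : ∀ j x x' y, x ∈ D.pc j → x' ∈ P → (∀ i, x' ∉ D.pc i) → |y| ≤ 4 →
    D.of j + D.sc j * y ≠ D.co x'
  inj : ∀ x x', x ∈ P → x' ∈ P → (∀ i, x ∉ D.pc i) → (∀ i, x' ∉ D.pc i) → D.co x = D.co x' → x = x'
  pot : ∀ j x x', x ∈ D.pc j → x' ∈ D.pc j → Phi (D.pc j) + |x - x'| / 3 ≤ Phi P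
  typ : TypJ P D ∨ TypC P D

lemma sc_le (j : ℕ) : ((1 : ℝ) / 100) ^ (j + 1) ≤ 1 / 100 := by
  rw [pow_succ]
  have : ((1 : ℝ) / 100) ^ j ≤ 1 := pow_le_one₀ (by norm_num) (by norm_num)
  nlinarith

lemma sc_lt {i j : ℕ} (h : i < j) : ((1 : ℝ) / 100) ^ (j + 1) ≤ 1 / 100 * (1 / 100) ^ (i + 1) := by
  have h1 : ((1 : ℝ) / 100) ^ (j + 1) ≤ (1 / 100) ^ (i + 1 + 1) :=
    pow_le_pow_of_le_one (by norm_num) (by norm_num) (by omega)
  refine h1.trans (le_of_eq ?_)
  ring

lemma exists_J {P : Set ℝ} (hP : Gd P) (hI : ∃ u v : ℝ, u < v ∧ Icc u v ⊆ P) :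
    ∃ D : Dat, IsDat P D := by
  classical
  obtain ⟨a, b, pc, hab, hsub, hclp, hdisj, hcore, hside, hdiam⟩ := pieces hP hI
  have hba : 0 < b - a := by linarith
  set sc : ℕ → ℝ := fun j => (1 / 100) ^ (j + 1) with hsc
  set of : ℕ → ℝ := fun j => if pc j ⊆ Iio a then -50 * sc j else 3 + 50 * sc j with hof
  set co : ℝ → ℝ := fun x => 3 * max 0 (min 1 ((x - a) / (b - a))) with hco
  have hsc0 : ∀ j, 0 < sc j := fun j => by rw [hsc]; positivity
  have hsc1 : ∀ j, sc j ≤ 1 / 100 := fun j => sc_le j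
  have hco3 : ∀ x, co x ∈ Icc (0 : ℝ) 3 := by
    intro x
    have h1 : 0 ≤ max 0 (min 1 ((x - a) / (b - a))) := le_max_left _ _
    have h2 : max 0 (min 1 ((x - a) / (b - a))) ≤ 1 := max_le zero_le_one (min_le_left _ _)
    rw [hco]
    constructor <;> simp only <;> linarith
  have hcol : ∀ x, x < a → co x = 0 := by
    intro x hx
    have h1 : (x - a) / (b - a) < 0 := div_neg_of_neg_of_pos (by linarith) hba
    rw [hco]
    simp only
    rw [min_eq_right (by linarith), max_eq_left h1.le, mul_zero]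
  have hcor : ∀ x, b < x → co x = 3 := by
    intro x hx
    have h1 : 1 < (x - a) / (b - a) := by rw [lt_div_iff₀ hba]; linarith
    rw [hco]
    simp only
    rw [min_eq_left h1.le, max_eq_right zero_le_one, mul_one]
  have hcom : ∀ x ∈ Icc a b, co x = 3 * ((x - a) / (b - a)) := by
    intro x hx
    have h1 : (x - a) / (b - a) ≤ 1 := by rw [div_le_iff₀ hba]; linarith [hx.2]
    have h2 : 0 ≤ (x - a) / (b - a) := div_nonneg (by linarith [hx.1]) hba.le
    rw [hco]
    simp only
    rw [min_eq_right h1, max_eq_right h2]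
  have hcases : ∀ j x, x ∈ pc j → (x < a ∧ of j = -50 * sc j) ∨ (b < x ∧ of j = 3 + 50 * sc j) := by
    intro j x hx
    by_cases h : pc j ⊆ Iio a
    · left
      refine ⟨h hx, ?_⟩
      simp only [hof, if_pos h]
    · right
      refine ⟨((hside j).resolve_left h) hx, ?_⟩
      simp only [hof, if_neg h]
  have hof2 : ∀ j, of j = -50 * sc j ∨ of j = 3 + 50 * sc j := by
    intro j
    by_cases h : pc j ⊆ Iio a
    · left
      simp only [hof, if_pos h]
    · right
      simp only [hof, if_neg h]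
  refine ⟨⟨pc, sc, of, co⟩, ⟨hclp, hdisj, hsc0, hsc1, ?_, ?_, ?_, ?_, ?_, ?_, ?_, ?_, Or.inl ⟨hI, ?_, ?_,
    fun j => rfl, hof2⟩⟩⟩
  · simp only [hco]
    fun_prop
  · intro x
    have := hco3 x
    simp only
    rw [abs_le]
    constructor <;> linarith [this.1, this.2]
  · intro j y hy
    have h1 := hsc0 j
    have h2 := hsc1 j
    rw [abs_le] at hy
    simp only
    rw [abs_le]
    rcases hof2 j with h | h <;> rw [h] <;> constructor <;> nlinarith
  · intro j x y hx hy
    have h1 := hsc0 j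
    have h3 : 200 * (1 / 100 : ℝ) ^ j = 20000 * sc j := by
      simp only [hsc]
      rw [pow_succ]; ring
    rw [abs_le] at hy
    simp only
    rw [h3, abs_le]
    rcases hcases j x hx with ⟨h4, h5⟩ | ⟨h4, h5⟩
    · rw [h5, hcol x h4]
      constructor <;> nlinarith
    · rw [h5, hcor x h4]
      constructor <;> nlinarith
  · -- separation of the pieces
    have key : ∀ i j x x' y y', i < j → x ∈ pc i → x' ∈ pc j → |y| ≤ 4 → |y'| ≤ 4 →
        of i + sc i * y ≠ of j + sc j * y' := by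
      intro i j x x' y y' hij hx hx' hy hy' heq
      have hi := hsc0 i
      have hj := hsc0 j
      have hi1 := hsc1 i
      have hj1 := hsc1 j
      have hlt : sc j ≤ 1 / 100 * sc i := sc_lt hij
      rw [abs_le] at hy hy'
      rcases hcases i x hx with ⟨h4, h5⟩ | ⟨h4, h5⟩ <;> rcases hcases j x' hx' with ⟨h6, h7⟩ | ⟨h6, h7⟩ <;>
        rw [h5, h7] at heq <;> nlinarith
    intro i j x x' y y' hij hx hx' hy hy'
    rcases lt_or_gt_of_ne hij with h | h
    · exact key i j x x' y y' h hx hx' hy hy'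
    · exact fun heq => key j i x' x y' y h hx' hx hy' hy heq.symm
  · intro j x x' y hx hx' hx'' hy heq
    have hj := hsc0 j
    rw [abs_le] at hy
    have h3 := hco3 x'
    simp only at heq
    rw [← heq] at h3
    rcases hcases j x hx with ⟨h4, h5⟩ | ⟨h4, h5⟩ <;> rw [h5] at h3
    · nlinarith [h3.1]
    · nlinarith [h3.2]
  · intro x x' hx hx' hxo hxo' heq
    have h1 := (hcore x hx).1 hxo
    have h2 := (hcore x' hx').1 hxo'
    simp only at heq
    rw [hcom x h1, hcom x' h2] at heq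
    have h3 : (x - a) / (b - a) = (x' - a) / (b - a) := by linarith
    rw [div_left_inj' hba.ne'] at h3
    linarith
  · intro j x x' hx hx'
    have h1 := hdiam j x hx x' hx'
    have h2 : Metric.diam (pc j) ≤ Metric.diam P := Metric.diam_mono (hclp j).2.2 hP.1.isBounded
    have h3 : volume (pc j) + ENNReal.ofReal (b - a) ≤ volume P := by
      have hdj : Disjoint (pc j) (Icc a b) := by
        rw [Set.disjoint_left]
        intro z hz hz2
        exact ((hcore z ((hclp j).2.2 hz)).2 hz2) j hz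
      rw [← Real.volume_Icc, ← measure_union hdj measurableSet_Icc]
      exact measure_mono (union_subset (hclp j).2.2 hsub)
    have hfin : volume P ≠ ⊤ := hP.1.measure_lt_top.ne
    have hfin' : volume (pc j) ≠ ⊤ := ((hclp j).gd hP).1.measure_lt_top.ne
    have h4 := ENNReal.toReal_mono hfin h3
    rw [ENNReal.toReal_add hfin' ENNReal.ofReal_ne_top, ENNReal.toReal_ofReal hba.le] at h4
    simp only [Phi]
    linarith
  · intro y hy
    have h1 : a + (b - a) * (y / 3) ∈ Icc a b := by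
      have h2 : 0 ≤ y / 3 := by linarith [hy.1]
      have h3 : y / 3 ≤ 1 := by linarith [hy.2]
      constructor <;> nlinarith
    refine ⟨a + (b - a) * (y / 3), hsub h1, (hcore _ (hsub h1)).2 h1, ?_⟩
    simp only
    rw [hcom _ h1]
    field_simp
    ring
  · intro x _ _
    exact hco3 x

lemma exists_C {P : Set ℝ} (hP : Gd P) (hI : ¬ ∃ u v : ℝ, u < v ∧ Icc u v ⊆ P) :
    ∃ D : Dat, IsDat P D := by
  classical
  push Not at hI
  have hPc := hP.1.isClosed
  have hsplit : ∃ m : ℝ, m ∉ P ∧ (P.Nonempty → (P ∩ Iio m).Nonempty ∧ (P ∩ Ioi m).Nonempty) ∧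
      (∀ x ∈ P, ∀ x' ∈ P, x < m → x' < m → |x - x'| ≤ 2 / 3 * Metric.diam P) ∧
      (∀ x ∈ P, ∀ x' ∈ P, m < x → m < x' → |x - x'| ≤ 2 / 3 * Metric.diam P) := by
    rcases P.eq_empty_or_nonempty with h | h
    · subst h
      exact ⟨0, notMem_empty _, fun h => absurd h not_nonempty_empty, by simp, by simp⟩
    · have hlo := hP.1.sInf_mem h
      have hhi := hP.1.sSup_mem h
      have hlb : ∀ x ∈ P, sInf P ≤ x := fun x hx => csInf_le hP.1.bddBelow hx
      have hub : ∀ x ∈ P, x ≤ sSup P := fun x hx => le_csSup hP.1.bddAbove hx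
      have hlt : sInf P < sSup P := by
        have h1 := hP.2 _ hlo
        rw [accPt_iff_frequently] at h1
        obtain ⟨y, hy1, hy2⟩ := h1.exists
        exact (lt_of_le_of_ne (hlb y hy2) hy1.symm).trans_le (hub y hy2)
      have hdi : Metric.diam P = sSup P - sInf P := by
        rw [Real.diam_eq hP.1.isBounded]
      obtain ⟨m, hm1, hm2⟩ : ∃ m ∈ Icc (sInf P + (sSup P - sInf P) / 3)
          (sInf P + 2 * (sSup P - sInf P) / 3), m ∉ P := by
        by_contra hcon
        push Not at hcon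
        exact hI (sInf P + (sSup P - sInf P) / 3) (sInf P + 2 * (sSup P - sInf P) / 3) (by linarith)
          hcon
      refine ⟨m, hm2, fun _ => ⟨⟨_, hlo, ?_⟩, ⟨_, hhi, ?_⟩⟩, ?_, ?_⟩
      · exact show sInf P < m by linarith [hm1.1]
      · exact show m < sSup P by linarith [hm1.2]
      · intro x hx x' hx' h1 h2
        rw [hdi, abs_le]
        constructor <;> linarith [hlb x hx, hlb x' hx', hm1.2]
      · intro x hx x' hx' h1 h2
        rw [hdi, abs_le]
        constructor <;> linarith [hub x hx, hub x' hx', hm1.1]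
  obtain ⟨m, hm, hne, hd0, hd1⟩ := hsplit
  set pc : ℕ → Set ℝ := fun j => if j = 0 then P ∩ Iio m else if j = 1 then P ∩ Ioi m else ∅ with hpc
  have p0 : pc 0 = P ∩ Iio m := by simp [hpc]
  have p1 : pc 1 = P ∩ Ioi m := by simp [hpc]
  have p2 : ∀ j, 2 ≤ j → pc j = ∅ := by
    intro j hj
    have h1 : j ≠ 0 := by omega
    have h2 : j ≠ 1 := by omega
    simp [hpc, h1, h2]
  have hclp : ∀ j, Clp P (pc j) := by
    intro j
    rcases Nat.lt_or_ge j 2 with h | h
    · interval_cases j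
      · rw [p0]
        refine ⟨?_, ?_, inter_subset_left⟩
        · have : P ∩ Iio m = P ∩ Iic m := by
            ext x
            constructor
            · rintro ⟨h1, h2⟩
              exact ⟨h1, mem_Iic.2 (le_of_lt (mem_Iio.1 h2))⟩
            · rintro ⟨h1, h2⟩
              refine ⟨h1, mem_Iio.2 (lt_of_le_of_ne (mem_Iic.1 h2) ?_)⟩
              rintro rfl; exact hm h1
          rw [this]
          exact hPc.inter isClosed_Iic
        · have : P \ (P ∩ Iio m) = P ∩ Ici m := by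
            ext x
            simp only [Set.mem_sdiff, mem_inter_iff, not_and, mem_Iio, mem_Ici, not_lt]
            tauto
          rw [this]
          exact hPc.inter isClosed_Ici
      · rw [p1]
        refine ⟨?_, ?_, inter_subset_left⟩
        · have : P ∩ Ioi m = P ∩ Ici m := by
            ext x
            constructor
            · rintro ⟨h1, h2⟩
              exact ⟨h1, mem_Ici.2 (le_of_lt (mem_Ioi.1 h2))⟩
            · rintro ⟨h1, h2⟩
              refine ⟨h1, mem_Ioi.2 (lt_of_le_of_ne (mem_Ici.1 h2) ?_)⟩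
              rintro rfl; exact hm h1
          rw [this]
          exact hPc.inter isClosed_Ici
        · have : P \ (P ∩ Ioi m) = P ∩ Iic m := by
            ext x
            simp only [Set.mem_sdiff, mem_inter_iff, not_and, mem_Ioi, mem_Iic, not_lt]
            tauto
          rw [this]
          exact hPc.inter isClosed_Iic
    · rw [p2 j h]
      exact Clp.empty hPc
  have hun : ∀ x ∈ P, x ∈ pc 0 ∨ x ∈ pc 1 := by
    intro x hx
    rw [p0, p1]
    rcases lt_trichotomy x m with h | h | h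
    · exact Or.inl ⟨hx, h⟩
    · exact absurd (h ▸ hx) hm
    · exact Or.inr ⟨hx, h⟩
  set of : ℕ → ℝ := fun j => if j = 1 then 1 else 0 with hof
  have hofr : ∀ j, 0 ≤ of j ∧ of j ≤ 1 := by
    intro j
    simp only [hof]
    split_ifs <;> norm_num
  have hj01 : ∀ j x, x ∈ pc j → j = 0 ∨ j = 1 := by
    intro j x hx
    by_contra hcon
    push Not at hcon
    rw [p2 j (by omega)] at hx
    exact notMem_empty _ hx
  refine ⟨⟨pc, fun _ => 1 / 100, of, fun _ => 0⟩, ⟨hclp, ?_, fun j => by norm_num, fun j => le_rfl,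
    continuous_const, fun x => by norm_num, ?_, ?_, ?_, ?_, ?_, ?_, Or.inr ⟨hI, hun, ?_, ?_,
    rfl, rfl, by simp [hof], by simp [hof]⟩⟩⟩
  · intro i j hij
    rw [Set.disjoint_left]
    intro x hx hx'
    simp only at hx hx'
    rcases hj01 i x hx with rfl | rfl <;> rcases hj01 j x hx' with rfl | rfl
    · exact hij rfl
    · rw [p0] at hx; rw [p1] at hx'
      exact lt_asymm (mem_Iio.1 hx.2) (mem_Ioi.1 hx'.2)
    · rw [p1] at hx; rw [p0] at hx'
      exact lt_asymm (mem_Ioi.1 hx.2) (mem_Iio.1 hx'.2)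
    · exact hij rfl
  · intro j y hy
    have h1 := hofr j
    rw [abs_le] at hy ⊢
    simp only
    constructor <;> linarith [h1.1, h1.2]
  · intro j x y hx hy
    have h1 := hofr j
    rw [abs_le] at hy
    rw [abs_le]
    simp only at hx ⊢
    rcases hj01 j x hx with rfl | rfl
    · constructor <;> norm_num <;> linarith [h1.1, h1.2]
    · constructor <;> norm_num <;> linarith [h1.1, h1.2]
  · intro i j x x' y y' hij hx hx' hy hy' heq
    rw [abs_le] at hy hy'
    simp only at hx hx' heq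
    rcases hj01 i x hx with rfl | rfl <;> rcases hj01 j x' hx' with rfl | rfl
    · exact hij rfl
    · simp [hof] at heq; linarith
    · simp [hof] at heq; linarith
    · exact hij rfl
  · intro j x x' y hx hx' hx'' hy heq
    rcases hun x' hx' with h | h
    · exact hx'' 0 h
    · exact hx'' 1 h
  · intro x x' hx hx' hxo hxo' heq
    rcases hun x hx with h | h
    · exact absurd h (hxo 0)
    · exact absurd h (hxo 1)
  · intro j x x' hx hx'
    simp only at hx hx' ⊢
    have hfin : volume P ≠ ⊤ := hP.1.measure_lt_top.ne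
    have h3 : (volume (pc j)).toReal ≤ (volume P).toReal :=
      ENNReal.toReal_mono hfin (measure_mono (hclp j).2.2)
    have hD : 0 ≤ Metric.diam P := Metric.diam_nonneg
    have hdd : ∀ y ∈ pc j, ∀ y' ∈ pc j, |y - y'| ≤ 2 / 3 * Metric.diam P := by
      intro y hy y' hy'
      rcases hj01 j x hx with rfl | rfl
      · rw [p0] at hy hy'
        exact hd0 y hy.1 y' hy'.1 hy.2 hy'.2
      · rw [p1] at hy hy'
        exact hd1 y hy.1 y' hy'.1 hy.2 hy'.2
    have h4 : Metric.diam (pc j) ≤ 2 / 3 * Metric.diam P :=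
      Metric.diam_le_of_forall_dist_le (by positivity) fun y hy y' hy' => by
        rw [Real.dist_eq]; exact hdd y hy y' hy'
    have h5 := hdd x hx x' hx'
    simp only [Phi]
    linarith
  · intro h
    simp only [p0]
    exact (hne h).1
  · intro h
    simp only [p1]
    exact (hne h).2

theorem exists_dat {P : Set ℝ} (hP : Gd P) : ∃ D : Dat, IsDat P D := by
  by_cases hI : ∃ u v : ℝ, u < v ∧ Icc u v ⊆ P
  · exact exists_J hP hI
  · exact exists_C hP hI

end Pool.Agent.R221.TS
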