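import Mathlib
import Pool.Agent.R221.TS.Dat
set_option autoImplicit false

/-! The embedding defined by the recursion. -/

namespace Pool.Agent.R221.TS

open Set Filter Topology MeasureTheory

/-- the chosen data -/
noncomputable def dat (P : Set ℝ) : Dat :=
  open Classical in
  if h : ∃ D : Dat, IsDat P D then h.choose else ⟨fun _ => ∅, fun _ => 1 / 100, fun _ => 0, fun _ => 0⟩

lemma dat_spec {P : Set ℝ} (hP : Gd P) : IsDat P (dat P) := by
  classical
  have h := exists_dat hP
  have : dat P = h.choose := by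
    unfold dat
    rw [dif_pos h]
  rw [this]
  exact h.choose_spec

lemma gd_pc {P : Set ℝ} (hP : Gd P) (j : ℕ) : Gd ((dat P).pc j) := ((dat_spec hP).clp j).gd hP

/-- the approximations -/
noncomputable def H : ℕ → Set ℝ → ℝ → ℝ
  | 0, _, _ => 0
  | n + 1, P, x =>
    open Classical in
    if h : ∃ j, x ∈ (dat P).pc j then
      (dat P).of h.choose + (dat P).sc h.choose * H n ((dat P).pc h.choose) x
    else (dat P).co x

lemma uniq {P : Set ℝ} (hP : Gd P) {i j : ℕ} {x : ℝ} (hi : x ∈ (dat P).pc i)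
    (hj : x ∈ (dat P).pc j) : i = j := by
  by_contra h
  exact Set.disjoint_left.1 ((dat_spec hP).disj i j h) hi hj

lemma H_in {P : Set ℝ} (hP : Gd P) (n : ℕ) {j : ℕ} {x : ℝ} (hx : x ∈ (dat P).pc j) :
    H (n + 1) P x = (dat P).of j + (dat P).sc j * H n ((dat P).pc j) x := by
  classical
  have h : ∃ j, x ∈ (dat P).pc j := ⟨j, hx⟩
  have e : h.choose = j := uniq hP h.choose_spec hx
  rw [H, dif_pos h, e]

lemma H_out {P : Set ℝ} (n : ℕ) {x : ℝ} (hx : ∀ j, x ∉ (dat P).pc j) :
    H (n + 1) P x = (dat P).co x := by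
  classical
  have h : ¬ ∃ j, x ∈ (dat P).pc j := fun ⟨j, hj⟩ => hx j hj
  rw [H, dif_neg h]

lemma H_bd : ∀ (n : ℕ) (P : Set ℝ) (x : ℝ), Gd P → |H n P x| ≤ 4
  | 0, P, x, _ => by
    rw [H, abs_zero]; norm_num
  | n + 1, P, x, hP => by
    by_cases h : ∃ j, x ∈ (dat P).pc j
    · obtain ⟨j, hj⟩ := h
      rw [H_in hP n hj]
      exact (dat_spec hP).bd j _ (H_bd n _ x (gd_pc hP j))
    · push Not at h
      rw [H_out n h]
      exact (dat_spec hP).co_bd x

lemma H_step : ∀ (n : ℕ) (P : Set ℝ) (x : ℝ), Gd P →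
    |H (n + 1) P x - H n P x| ≤ 4 * (1 / 100) ^ n
  | 0, P, x, hP => by
    have h1 := H_bd 1 P x hP
    have h2 : H 0 P x = 0 := rfl
    rw [h2, sub_zero, pow_zero, mul_one]
    exact h1
  | n + 1, P, x, hP => by
    by_cases h : ∃ j, x ∈ (dat P).pc j
    · obtain ⟨j, hj⟩ := h
      rw [H_in hP (n + 1) hj, H_in hP n hj, add_sub_add_left_eq_sub, ← mul_sub, abs_mul]
      have h1 := H_step n _ x (gd_pc hP j)
      have h2 := (dat_spec hP).sc0 j
      have h3 := (dat_spec hP).sc1 j
      rw [abs_of_pos h2, pow_succ]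
      have h4 : (0 : ℝ) ≤ 4 * (1 / 100) ^ n := by positivity
      calc (dat P).sc j * |H (n + 1) ((dat P).pc j) x - H n ((dat P).pc j) x| ≤
          (1 / 100) * (4 * (1 / 100) ^ n) := mul_le_mul h3 h1 (abs_nonneg _) (by norm_num)
        _ = 4 * ((1 / 100) ^ n * (1 / 100)) := by ring
    · push Not at h
      rw [H_out (n + 1) h, H_out n h, sub_self, abs_zero]
      positivity

/-- the limit -/
noncomputable def hh (P : Set ℝ) (x : ℝ) : ℝ := limUnder atTop (fun n => H n P x)

lemma H_tendsto {P : Set ℝ} (hP : Gd P) (x : ℝ) : Tendsto (fun n => H n P x) atTop (𝓝 (hh P x)) := by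
  have h := cauchySeq_of_le_geometric (1 / 100) 4 (f := fun n => H n P x) (by norm_num) (fun n => by
    rw [dist_comm, Real.dist_eq]
    exact H_step n P x hP)
  exact h.tendsto_limUnder

lemma hh_sub {P : Set ℝ} (hP : Gd P) (n : ℕ) (x : ℝ) : |H n P x - hh P x| ≤ 5 * (1 / 100) ^ n := by
  have h := dist_le_of_le_geometric_of_tendsto (1 / 100) 4 (f := fun n => H n P x) (by norm_num)
    (fun n => by
      rw [dist_comm, Real.dist_eq]
      exact H_step n P x hP) (H_tendsto hP x) n
  rw [Real.dist_eq] at h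
  refine h.trans ?_
  have h4 : (0 : ℝ) ≤ (1 / 100) ^ n := by positivity
  rw [div_le_iff₀ (by norm_num)]
  nlinarith

lemma hh_bd {P : Set ℝ} (hP : Gd P) (x : ℝ) : |hh P x| ≤ 4 := by
  have h := (H_tendsto hP x).abs
  exact le_of_tendsto' h fun n => H_bd n P x hP

lemma hh_in {P : Set ℝ} (hP : Gd P) {j : ℕ} {x : ℝ} (hx : x ∈ (dat P).pc j) :
    hh P x = (dat P).of j + (dat P).sc j * hh ((dat P).pc j) x := by
  have h1 := (tendsto_add_atTop_iff_nat 1).2 (H_tendsto hP x)
  have h2 : Tendsto (fun n => H (n + 1) P x) atTop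
      (𝓝 ((dat P).of j + (dat P).sc j * hh ((dat P).pc j) x)) := by
    simp only [H_in hP _ hx]
    exact ((H_tendsto (gd_pc hP j) x).const_mul _).const_add _
  exact tendsto_nhds_unique h1 h2

lemma hh_out {P : Set ℝ} (hP : Gd P) {x : ℝ} (hx : ∀ j, x ∉ (dat P).pc j) :
    hh P x = (dat P).co x := by
  have h1 := (tendsto_add_atTop_iff_nat 1).2 (H_tendsto hP x)
  have h2 : Tendsto (fun n => H (n + 1) P x) atTop (𝓝 ((dat P).co x)) := by
    simp only [H_out _ hx]
    exact tendsto_const_nhds
  exact tendsto_nhds_unique h1 h2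

/-! ### continuity -/

lemma pow_tendsto (C : ℝ) : Tendsto (fun n : ℕ => C * (1 / 100 : ℝ) ^ n) atTop (𝓝 0) := by
  have h := tendsto_pow_atTop_nhds_zero_of_lt_one (r := (1 / 100 : ℝ)) (by norm_num) (by norm_num)
  simpa using h.const_mul C

lemma cont_of_unif {P : Set ℝ} {F : ℕ → ℝ → ℝ} {f : ℝ → ℝ} {C : ℝ}
    (hF : ∀ n, ContinuousOn (F n) P) (h : ∀ n, ∀ x ∈ P, |F n x - f x| ≤ C * (1 / 100) ^ n) :
    ContinuousOn f P := by
  refine TendstoUniformlyOn.continuousOn (F := F) (p := atTop) ?_ (Frequently.of_forall hF)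
  rw [Metric.tendstoUniformlyOn_iff]
  intro ε hε
  have h1 := (pow_tendsto C).eventually (gt_mem_nhds hε)
  filter_upwards [h1] with n hn x hx
  rw [dist_comm, Real.dist_eq]
  exact (h n x hx).trans_lt hn

/-- auxiliary function that uses only the first pieces -/
noncomputable def G (n : ℕ) (P : Set ℝ) : ℕ → ℝ → ℝ
  | 0, x => (dat P).co x
  | N + 1, x => open Classical in if x ∈ (dat P).pc N then H (n + 1) P x else G n P N x

lemma G_eq {P : Set ℝ} (n : ℕ) (N : ℕ) {x : ℝ} (h : ∃ j < N, x ∈ (dat P).pc j) :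
    G n P N x = H (n + 1) P x := by
  induction N with
  | zero => obtain ⟨j, hj, _⟩ := h; omega
  | succ N ih =>
    rw [G]
    split_ifs with h1
    · rfl
    · obtain ⟨j, hj, hx⟩ := h
      apply ih
      refine ⟨j, ?_, hx⟩
      rcases Nat.lt_succ_iff_lt_or_eq.1 hj with h2 | h2
      · exact h2
      · subst h2; exact absurd hx h1

lemma G_eq' {P : Set ℝ} (n : ℕ) (N : ℕ) {x : ℝ} (h : ∀ j < N, x ∉ (dat P).pc j) :
    G n P N x = (dat P).co x := by
  induction N with
  | zero => rw [G]
  | succ N ih =>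
    rw [G, if_neg (h N (Nat.lt_succ_self N))]
    exact ih fun j hj => h j (by omega)

lemma cont_H (n : ℕ) : ∀ P : Set ℝ, Gd P → ContinuousOn (H n P) P := by
  induction n with
  | zero =>
    intro P _
    exact continuousOn_const
  | succ n ih =>
    intro P hP
    have D := dat_spec hP
    have hG : ∀ N, ContinuousOn (G n P N) P := by
      intro N
      induction N with
      | zero =>
        have : G n P 0 = (dat P).co := by funext x; rw [G]
        rw [this]
        exact D.co_cont.continuousOn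
      | succ N ihN =>
        have hsplit : P = (dat P).pc N ∪ (P \ (dat P).pc N) :=
          (Set.union_sdiff_cancel (D.clp N).2.2).symm
        rw [hsplit]
        refine ContinuousOn.union_of_isClosed ?_ ?_ (D.clp N).1 (D.clp N).2.1
        · have h1 : ContinuousOn (fun x => (dat P).of N + (dat P).sc N * H n ((dat P).pc N) x)
              ((dat P).pc N) := continuousOn_const.add (continuousOn_const.mul (ih _ (gd_pc hP N)))
          refine h1.congr fun x hx => ?_
          rw [← hsplit, G, if_pos hx, H_in hP n hx]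
        · rw [← hsplit]
          refine (ihN.mono sdiff_subset).congr fun x hx => ?_
          rw [G, if_neg hx.2]
    refine cont_of_unif (F := G n P) (C := 200) hG ?_
    intro N x hx
    by_cases h : ∃ j < N, x ∈ (dat P).pc j
    · rw [G_eq n N h, sub_self, abs_zero]
      positivity
    · push Not at h
      rw [G_eq' n N h]
      by_cases h' : ∃ j, x ∈ (dat P).pc j
      · obtain ⟨j, hj⟩ := h'
        have hjN : N ≤ j := by
          by_contra hcon
          exact h j (not_le.1 hcon) hj
        rw [H_in hP n hj, abs_sub_comm]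
        refine (D.near j x _ hj (H_bd n _ x (gd_pc hP j))).trans ?_
        have : ((1 : ℝ) / 100) ^ j ≤ (1 / 100) ^ N := pow_le_pow_of_le_one (by norm_num) (by norm_num) hjN
        linarith
      · push Not at h'
        rw [H_out n h', sub_self, abs_zero]
        positivity

theorem cont_hh {P : Set ℝ} (hP : Gd P) : ContinuousOn (hh P) P :=
  cont_of_unif (F := fun n => H n P) (C := 5) (fun n => cont_H n P hP) (fun n x _ => hh_sub hP n x)

/-! ### injectivity -/

theorem inj_hh {P : Set ℝ} (hP : Gd P) : InjOn (hh P) P := by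
  intro x hx x' hx' heq
  by_contra hne
  have hpos : 0 < |x - x'| / 3 := by
    have := abs_pos.2 (sub_ne_zero.2 hne)
    linarith
  have key : ∀ n : ℕ, ∃ Q : Set ℝ, Gd Q ∧ x ∈ Q ∧ x' ∈ Q ∧ hh Q x = hh Q x' ∧
      Phi Q + n * (|x - x'| / 3) ≤ Phi P := by
    intro n
    induction n with
    | zero => exact ⟨P, hP, hx, hx', heq, by simp⟩
    | succ n ih =>
      obtain ⟨Q, hQ, h1, h2, h3, h4⟩ := ih
      have D := dat_spec hQ
      by_cases hi : ∃ i, x ∈ (dat Q).pc i
      · obtain ⟨i, hi⟩ := hi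
        by_cases hj : ∃ j, x' ∈ (dat Q).pc j
        · obtain ⟨j, hj⟩ := hj
          rw [hh_in hQ hi, hh_in hQ hj] at h3
          by_cases hij : i = j
          · subst hij
            have h5 : hh ((dat Q).pc i) x = hh ((dat Q).pc i) x' := by
              have h6 := add_left_cancel h3
              exact mul_left_cancel₀ (D.sc0 i).ne' h6
            refine ⟨(dat Q).pc i, gd_pc hQ i, hi, hj, h5, ?_⟩
            have h6 := D.pot i x x' hi hj
            push_cast
            linarith
          · exact absurd h3 (D.sep i j x x' _ _ hij hi hj (hh_bd (gd_pc hQ i) x)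
              (hh_bd (gd_pc hQ j) x'))
        · push Not at hj
          rw [hh_in hQ hi, hh_out hQ hj] at h3
          exact absurd h3 (D.sepc i x x' _ hi h2 hj (hh_bd (gd_pc hQ i) x))
      · push Not at hi
        by_cases hj : ∃ j, x' ∈ (dat Q).pc j
        · obtain ⟨j, hj⟩ := hj
          rw [hh_out hQ hi, hh_in hQ hj] at h3
          exact absurd h3.symm (D.sepc j x' x _ hj h1 hi (hh_bd (gd_pc hQ j) x'))
        · push Not at hj
          rw [hh_out hQ hi, hh_out hQ hj] at h3
          exact absurd (D.inj x x' h1 h2 hi hj h3) hne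
  obtain ⟨n, hn⟩ := exists_nat_gt (Phi P / (|x - x'| / 3))
  obtain ⟨Q, -, -, -, -, hQ⟩ := key n
  rw [div_lt_iff₀ hpos] at hn
  have := Phi_nonneg Q
  linarith

end Pool.Agent.R221.TS
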