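import Mathlib
import Pool.Agent.R221.TS.Hom
set_option autoImplicit false

/-! The image of the embedding is a union of translates of a Cantor set. -/

namespace Pool.Agent.R221.TS

open Set Filter Topology MeasureTheory

/-- digit -/
noncomputable def dg (b : Bool) : ℝ := if b then 1 else 0

lemma dg_nonneg (b : Bool) : 0 ≤ dg b := by cases b <;> simp [dg]
lemma dg_le (b : Bool) : dg b ≤ 1 := by cases b <;> simp [dg]

/-- the value of a sequence of digits in base `100` -/
noncomputable def val (ε : ℕ → Bool) : ℝ := ∑' i, dg (ε i) * (1 / 100) ^ i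

lemma term_nonneg (ε : ℕ → Bool) (i : ℕ) : 0 ≤ dg (ε i) * (1 / 100 : ℝ) ^ i :=
  mul_nonneg (dg_nonneg _) (by positivity)

lemma term_le (ε : ℕ → Bool) (i : ℕ) : dg (ε i) * (1 / 100 : ℝ) ^ i ≤ (1 / 100) ^ i :=
  mul_le_of_le_one_left (by positivity) (dg_le _)

lemma geo : Summable fun i : ℕ => (1 / 100 : ℝ) ^ i :=
  summable_geometric_of_lt_one (by norm_num) (by norm_num)

lemma summ (ε : ℕ → Bool) : Summable fun i => dg (ε i) * (1 / 100 : ℝ) ^ i :=
  Summable.of_nonneg_of_le (term_nonneg ε) (term_le ε) geo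

lemma val_nonneg (ε : ℕ → Bool) : 0 ≤ val ε := tsum_nonneg (term_nonneg ε)

lemma val_le (ε : ℕ → Bool) : val ε ≤ 2 := by
  have h1 : val ε ≤ ∑' i : ℕ, (1 / 100 : ℝ) ^ i := (summ ε).tsum_le_tsum (term_le ε) geo
  have h2 : ∑' i : ℕ, (1 / 100 : ℝ) ^ i = (1 - 1 / 100)⁻¹ :=
    tsum_geometric_of_lt_one (by norm_num) (by norm_num)
  rw [h2] at h1
  refine h1.trans ?_
  norm_num

/-- partial sums -/
noncomputable def fs (m : ℕ) (ε : ℕ → Bool) : ℝ := ∑ i ∈ Finset.range m, dg (ε i) * (1 / 100) ^ i

lemma val_split (m : ℕ) (ε : ℕ → Bool) :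
    val ε = fs m ε + (1 / 100) ^ m * val (fun i => ε (i + m)) := by
  unfold val fs
  rw [← (summ ε).sum_add_tsum_nat_add m, ← tsum_mul_left]
  congr 1
  apply tsum_congr
  intro i
  rw [pow_add]
  ring

lemma cont_val : Continuous val := by
  refine continuous_tsum (fun i => ?_) geo (fun i ε => ?_)
  · refine Continuous.mul ?_ continuous_const
    exact (continuous_of_discreteTopology (f := dg)).comp (continuous_apply i)
  · rw [Real.norm_eq_abs, abs_of_nonneg (term_nonneg ε i)]
    exact term_le ε i

/-- insertion of `m` equal digits in front -/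
def ins (m : ℕ) (b : Bool) (ε : ℕ → Bool) : ℕ → Bool := fun i => if i < m then b else ε (i - m)

lemma val_ins (m : ℕ) (b : Bool) (ε : ℕ → Bool) :
    val (ins m b ε) = fs m (fun _ => b) + (1 / 100) ^ m * val ε := by
  rw [val_split m]
  congr 1
  · unfold fs
    apply Finset.sum_congr rfl
    intro i hi
    rw [ins, if_pos (Finset.mem_range.1 hi)]
  · congr 2
    funext i
    rw [ins, if_neg (by omega), Nat.add_sub_cancel]

lemma fs_false (m : ℕ) : fs m (fun _ => false) = 0 := by
  unfold fs
  simp [dg]

lemma fs_true_le (m : ℕ) : fs m (fun _ => true) ≤ 2 := by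
  have h := val_split m (fun _ => true)
  have h1 := val_le (fun _ => true)
  have h2 : 0 ≤ (1 / 100 : ℝ) ^ m * val (fun i => (fun _ : ℕ => true) (i + m)) :=
    mul_nonneg (by positivity) (val_nonneg _)
  linarith

lemma fs_ge {j : ℕ} {ε : ℕ → Bool} {i : ℕ} (hi : i < j + 1) (h : ε i = true) :
    (1 / 100 : ℝ) ^ j ≤ fs (j + 1) ε := by
  have h1 : dg (ε i) * (1 / 100 : ℝ) ^ i ≤ fs (j + 1) ε :=
    Finset.single_le_sum (f := fun i => dg (ε i) * (1 / 100 : ℝ) ^ i) (fun k _ => term_nonneg ε k)
      (Finset.mem_range.2 hi)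
  rw [h, dg, if_pos rfl, one_mul] at h1
  exact (pow_le_pow_of_le_one (by norm_num) (by norm_num) (by omega : i ≤ j)).trans h1

lemma fs_nonneg (m : ℕ) (ε : ℕ → Bool) : 0 ≤ fs m ε := Finset.sum_nonneg fun k _ => term_nonneg ε k

lemma fs_le {j : ℕ} {ε : ℕ → Bool} {i : ℕ} (hi : i < j + 1) (h : ε i = false) :
    fs (j + 1) ε ≤ fs (j + 1) (fun _ => true) - (1 / 100 : ℝ) ^ j := by
  have h1 : (fun k => !(ε k)) i = true := by simp [h]
  have h2 := fs_ge (ε := fun k => !(ε k)) hi h1
  have h3 : fs (j + 1) (fun k => !(ε k)) = fs (j + 1) (fun _ => true) - fs (j + 1) ε := by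
    unfold fs
    rw [← Finset.sum_sub_distrib]
    apply Finset.sum_congr rfl
    intro k _
    cases hk : ε k <;> simp [dg, hk]
  linarith

/-! ### approximations -/

/-- approximate version of the translation property -/
def Ap (P : Set ℝ) (x : ℝ) (n : ℕ) (t : ℝ) : Prop :=
  (∃ ε, |hh P x - (t + val ε)| ≤ 10 * (1 / 100) ^ n) ∧
    ∀ ε, ∃ x' ∈ P, |hh P x' - (t + val ε)| ≤ 10 * (1 / 100) ^ n

lemma Ap_bd {P : Set ℝ} (hP : Gd P) {x : ℝ} {n : ℕ} {t : ℝ} (h : Ap P x n t) : |t| ≤ 16 := by
  obtain ⟨x', _, h1⟩ := h.2 (fun _ => false)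
  have h2 := hh_bd hP x'
  have h3 := val_nonneg (fun _ => false)
  have h4 := val_le (fun _ => false)
  have h5 : (1 / 100 : ℝ) ^ n ≤ 1 := pow_le_one₀ (by norm_num) (by norm_num)
  rw [abs_le] at h1 h2 ⊢
  constructor <;> linarith [h1.1, h1.2, h2.1, h2.2]

lemma typC_of {P : Set ℝ} (hP : Gd P) (hI : ∀ u v : ℝ, u < v → ¬ Icc u v ⊆ P) : TypC P (dat P) := by
  rcases (dat_spec hP).typ with h | h
  · obtain ⟨u, v, huv, h1⟩ := h.int
    exact absurd h1 (hI u v huv)
  · exact h

lemma approxC (n : ℕ) : ∀ P : Set ℝ, Gd P → (∀ u v : ℝ, u < v → ¬ Icc u v ⊆ P) → P.Nonempty →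
    (∀ x ∈ P, ∃ ε, |hh P x - val ε| ≤ 10 * (1 / 100) ^ n) ∧
      ∀ ε, ∃ x ∈ P, |hh P x - val ε| ≤ 10 * (1 / 100) ^ n := by
  induction n with
  | zero =>
    intro P hP hI hne
    have key : ∀ x ε, |hh P x - val ε| ≤ 10 * (1 / 100) ^ 0 := by
      intro x ε
      have h2 := hh_bd hP x
      have h3 := val_nonneg ε
      have h4 := val_le ε
      rw [abs_le] at h2 ⊢
      constructor <;> norm_num <;> linarith [h2.1, h2.2]
    obtain ⟨x0, hx0⟩ := hne
    exact ⟨fun x _ => ⟨fun _ => false, key x _⟩, fun ε => ⟨x0, hx0, key x0 ε⟩⟩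
  | succ n ih =>
    intro P hP hI hne
    have T := typC_of hP hI
    have D := dat_spec hP
    have hI' : ∀ j, ∀ u v : ℝ, u < v → ¬ Icc u v ⊆ (dat P).pc j := fun j u v huv h =>
      hI u v huv (h.trans (D.clp j).2.2)
    obtain ⟨a0, b0⟩ := ih _ (gd_pc hP 0) (hI' 0) (T.ne0 hne)
    obtain ⟨a1, b1⟩ := ih _ (gd_pc hP 1) (hI' 1) (T.ne1 hne)
    have f1 : ∀ b : Bool, fs 1 (fun _ => b) = dg b := fun b => by simp [fs]
    constructor
    · intro x hx
      rcases T.un x hx with h | h
      · obtain ⟨ε, hε⟩ := a0 x h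
        refine ⟨ins 1 false ε, ?_⟩
        rw [hh_in hP h, T.of0, T.sc0, val_ins, f1]
        have e : 0 + 1 / 100 * hh ((dat P).pc 0) x - (dg false + (1 / 100) ^ 1 * val ε) =
            1 / 100 * (hh ((dat P).pc 0) x - val ε) := by
          simp [dg]; ring
        rw [e, abs_mul, abs_of_pos (by norm_num : (0 : ℝ) < 1 / 100), pow_succ]
        linarith
      · obtain ⟨ε, hε⟩ := a1 x h
        refine ⟨ins 1 true ε, ?_⟩
        rw [hh_in hP h, T.of1, T.sc1, val_ins, f1]
        have e : 1 + 1 / 100 * hh ((dat P).pc 1) x - (dg true + (1 / 100) ^ 1 * val ε) =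
            1 / 100 * (hh ((dat P).pc 1) x - val ε) := by
          simp [dg]; ring
        rw [e, abs_mul, abs_of_pos (by norm_num : (0 : ℝ) < 1 / 100), pow_succ]
        linarith
    · intro ε
      have hs := val_split 1 ε
      have hf : fs 1 ε = dg (ε 0) := by simp [fs]
      rcases hb : ε 0 with _ | _
      · obtain ⟨x, hx, hx2⟩ := b0 (fun i => ε (i + 1))
        refine ⟨x, (D.clp 0).2.2 hx, ?_⟩
        rw [hh_in hP hx, T.of0, T.sc0, hs, hf, hb]
        have e : 0 + 1 / 100 * hh ((dat P).pc 0) x - (dg false + (1 / 100) ^ 1 * val fun i => ε (i + 1)) =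
            1 / 100 * (hh ((dat P).pc 0) x - val fun i => ε (i + 1)) := by
          simp [dg]; ring
        rw [e, abs_mul, abs_of_pos (by norm_num : (0 : ℝ) < 1 / 100), pow_succ]
        linarith
      · obtain ⟨x, hx, hx2⟩ := b1 (fun i => ε (i + 1))
        refine ⟨x, (D.clp 1).2.2 hx, ?_⟩
        rw [hh_in hP hx, T.of1, T.sc1, hs, hf, hb]
        have e : 1 + 1 / 100 * hh ((dat P).pc 1) x - (dg true + (1 / 100) ^ 1 * val fun i => ε (i + 1)) =
            1 / 100 * (hh ((dat P).pc 1) x - val fun i => ε (i + 1)) := by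
          simp [dg]; ring
        rw [e, abs_mul, abs_of_pos (by norm_num : (0 : ℝ) < 1 / 100), pow_succ]
        linarith

lemma approx (n : ℕ) : ∀ P : Set ℝ, Gd P → ∀ x ∈ P, ∃ t, Ap P x n t := by
  induction n with
  | zero =>
    intro P hP x hx
    have key : ∀ x ε, |hh P x - (0 + val ε)| ≤ 10 * (1 / 100) ^ 0 := by
      intro x ε
      have h2 := hh_bd hP x
      have h3 := val_nonneg ε
      have h4 := val_le ε
      rw [abs_le] at h2 ⊢
      constructor <;> norm_num <;> linarith [h2.1, h2.2]
    exact ⟨0, ⟨fun _ => false, key x _⟩, fun ε => ⟨x, hx, key x ε⟩⟩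
  | succ n ih =>
    intro P hP x hx
    have D := dat_spec hP
    by_cases hI : ∀ u v : ℝ, u < v → ¬ Icc u v ⊆ P
    · obtain ⟨h1, h2⟩ := approxC (n + 1) P hP hI ⟨x, hx⟩
      refine ⟨0, ?_, ?_⟩
      · obtain ⟨ε, h3⟩ := h1 x hx
        exact ⟨ε, by rwa [zero_add]⟩
      · intro ε
        obtain ⟨x', h3, h4⟩ := h2 ε
        exact ⟨x', h3, by rwa [zero_add]⟩
    have T : TypJ P (dat P) := by
      rcases D.typ with h | h
      · exact h
      · exact absurd h.noI hI
    have hη : (0 : ℝ) ≤ 10 * (1 / 100) ^ (n + 1) := by positivity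
    -- points of the interval
    have hout : ∀ y ∈ Icc (0 : ℝ) 3, ∃ x' ∈ P, |hh P x' - y| ≤ 10 * (1 / 100) ^ (n + 1) := by
      intro y hy
      obtain ⟨x', h1, h2, h3⟩ := T.out y hy
      refine ⟨x', h1, ?_⟩
      rw [hh_out hP h2, h3, sub_self, abs_zero]
      exact hη
    by_cases hj : ∃ j, x ∈ (dat P).pc j
    · obtain ⟨j, hj⟩ := hj
      obtain ⟨t', ht'⟩ := ih _ (gd_pc hP j) x hj
      have hbd := Ap_bd (gd_pc hP j) ht'
      obtain ⟨⟨ε', hε'⟩, hall⟩ := ht'
      have hρ0 := D.sc0 j
      have hρ1 := D.sc1 j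
      have hρ : (dat P).sc j = (1 / 100) ^ (j + 1) := T.sc j
      have hρ2 : (1 / 100 : ℝ) ^ j = 100 * (dat P).sc j := by
        rw [hρ, pow_succ]; ring
      set ρ := (dat P).sc j with hρdef
      have hsmall : ∀ r : ℝ, |r| ≤ 10 * (1 / 100) ^ n → |ρ * r| ≤ 10 * (1 / 100) ^ (n + 1) := by
        intro r hr
        rw [abs_mul, abs_of_pos hρ0]
        calc ρ * |r| ≤ 1 / 100 * (10 * (1 / 100) ^ n) := mul_le_mul hρ1 hr (abs_nonneg _) (by norm_num)
          _ = 10 * (1 / 100) ^ (n + 1) := by rw [pow_succ]; ring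
      rw [abs_le] at hbd
      rcases T.of j with ho | ho
      · -- left side
        refine ⟨ρ * (t' - 50), ⟨ins (j + 1) false ε', ?_⟩, ?_⟩
        · rw [hh_in hP hj, ho, val_ins, fs_false, ← hρ]
          have e : -50 * ρ + ρ * hh ((dat P).pc j) x - (ρ * (t' - 50) + (0 + ρ * val ε')) =
              ρ * (hh ((dat P).pc j) x - (t' + val ε')) := by ring
          rw [e]
          exact hsmall _ hε'
        · intro ε
          by_cases hz : ∃ i < j + 1, ε i = true
          · obtain ⟨i, hi, hi2⟩ := hz
            have h1 := fs_ge hi hi2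
            have h2 := val_split (j + 1) ε
            have h3 : 0 ≤ (1 / 100 : ℝ) ^ (j + 1) * val (fun i => ε (i + (j + 1))) :=
              mul_nonneg (by positivity) (val_nonneg _)
            have h4 := val_le ε
            apply hout
            constructor <;> nlinarith [hbd.1, hbd.2]
          · push Not at hz
            obtain ⟨x', hx', hx2⟩ := hall (fun i => ε (i + (j + 1)))
            refine ⟨x', (D.clp j).2.2 hx', ?_⟩
            have h0 : fs (j + 1) ε = 0 := by
              unfold fs
              apply Finset.sum_eq_zero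
              intro i hi
              have := hz i (Finset.mem_range.1 hi)
              rw [ne_eq, Bool.not_eq_true] at this
              rw [this, dg, if_neg (by simp), zero_mul]
            rw [hh_in hP hx', ho, val_split (j + 1) ε, h0, ← hρ]
            have e : -50 * ρ + ρ * hh ((dat P).pc j) x' -
                (ρ * (t' - 50) + (0 + ρ * val fun i => ε (i + (j + 1)))) =
                ρ * (hh ((dat P).pc j) x' - (t' + val fun i => ε (i + (j + 1)))) := by ring
            rw [e]
            exact hsmall _ hx2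
      · -- right side
        have hF2 := fs_true_le (j + 1)
        set F := fs (j + 1) (fun _ => true) with hF
        refine ⟨3 + ρ * (t' + 50) - F, ⟨ins (j + 1) true ε', ?_⟩, ?_⟩
        · rw [hh_in hP hj, ho, val_ins, ← hρ, ← hF]
          have e : 3 + 50 * ρ + ρ * hh ((dat P).pc j) x - (3 + ρ * (t' + 50) - F + (F + ρ * val ε')) =
              ρ * (hh ((dat P).pc j) x - (t' + val ε')) := by ring
          rw [e]
          exact hsmall _ hε'
        · intro ε
          by_cases hz : ∃ i < j + 1, ε i = false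
          · obtain ⟨i, hi, hi2⟩ := hz
            have h1 := fs_le hi hi2
            have h2 := val_split (j + 1) ε
            have h3 := val_le (fun i => ε (i + (j + 1)))
            have h4 := val_nonneg ε
            rw [← hρ] at h2
            have h5 : ρ * val (fun i => ε (i + (j + 1))) ≤ ρ * 2 :=
              mul_le_mul_of_nonneg_left h3 hρ0.le
            apply hout
            constructor <;> nlinarith [hbd.1, hbd.2]
          · push Not at hz
            obtain ⟨x', hx', hx2⟩ := hall (fun i => ε (i + (j + 1)))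
            refine ⟨x', (D.clp j).2.2 hx', ?_⟩
            have h0 : fs (j + 1) ε = F := by
              rw [hF]
              unfold fs
              apply Finset.sum_congr rfl
              intro i hi
              have := hz i (Finset.mem_range.1 hi)
              rw [ne_eq, Bool.not_eq_false] at this
              rw [this]
            rw [hh_in hP hx', ho, val_split (j + 1) ε, h0, ← hρ]
            have e : 3 + 50 * ρ + ρ * hh ((dat P).pc j) x' -
                (3 + ρ * (t' + 50) - F + (F + ρ * val fun i => ε (i + (j + 1)))) =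
                ρ * (hh ((dat P).pc j) x' - (t' + val fun i => ε (i + (j + 1)))) := by ring
            rw [e]
            exact hsmall _ hx2
    · push Not at hj
      have hy := T.rng x hx hj
      have hhx := hh_out hP hj
      by_cases hy1 : (dat P).co x ≤ 1
      · refine ⟨(dat P).co x, ⟨ins 0 false (fun _ => false), ?_⟩, ?_⟩
        · have h0 : val (ins 0 false (fun _ => false)) = 0 := by
            unfold val
            simp [ins, dg]
          rw [hhx, h0, add_zero, sub_self, abs_zero]
          exact hη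
        · intro ε
          apply hout
          have h3 := val_nonneg ε
          have h4 := val_le ε
          constructor <;> linarith [hy.1, hy.2]
      · push Not at hy1
        have hm : val (fun _ => true) = 100 / 99 := by
          unfold val
          simp only [dg, if_true, one_mul]
          rw [tsum_geometric_of_lt_one (by norm_num) (by norm_num)]
          norm_num
        have hm2 : ∀ ε, val ε ≤ 100 / 99 := by
          intro ε
          rw [← hm]
          refine (summ ε).tsum_le_tsum (fun i => ?_) (summ _)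
          exact mul_le_mul_of_nonneg_right (by simpa [dg] using dg_le (ε i)) (by positivity)
        by_cases hy2 : (dat P).co x ≤ 3 / 2
        · refine ⟨(dat P).co x, ⟨fun _ => false, ?_⟩, ?_⟩
          · have h0 : val (fun _ => false) = 0 := by
              unfold val
              simp [dg]
            rw [hhx, h0, add_zero, sub_self, abs_zero]
            exact hη
          · intro ε
            apply hout
            have h3 := val_nonneg ε
            have h4 := hm2 ε
            constructor <;> linarith [hy.1, hy.2]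
        · push Not at hy2
          refine ⟨(dat P).co x - 100 / 99, ⟨fun _ => true, ?_⟩, ?_⟩
          · rw [hhx, hm, sub_add_cancel, sub_self, abs_zero]
            exact hη
          · intro ε
            apply hout
            have h3 := val_nonneg ε
            have h4 := hm2 ε
            constructor <;> linarith [hy.1, hy.2]

/-- the translation property -/
theorem transl {P : Set ℝ} (hP : Gd P) {x : ℝ} (hx : x ∈ P) :
    ∃ t, (∃ ε, hh P x = t + val ε) ∧ ∀ ε, t + val ε ∈ hh P '' P := by
  choose t ht using fun n => approx n P hP x hx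
  have hcomp : IsCompact (Icc (-16 : ℝ) 16) := isCompact_Icc
  obtain ⟨s, -, φ, hφ, hs⟩ := hcomp.tendsto_subseq (x := t) (fun n => by
    have := Ap_bd hP (ht n)
    rw [abs_le] at this
    exact this)
  have herr : Tendsto (fun n => 10 * (1 / 100 : ℝ) ^ (φ n)) atTop (𝓝 0) :=
    (pow_tendsto 10).comp hφ.tendsto_atTop
  refine ⟨s, ?_, ?_⟩
  · choose ε hε using fun n => (ht n).1
    have hC : IsClosed (range val) := (isCompact_range cont_val).isClosed
    have h1 : Tendsto (fun n => val (ε (φ n))) atTop (𝓝 (hh P x - s)) := by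
      have h2 : Tendsto (fun n => (hh P x - t (φ n)) - (hh P x - (t (φ n) + val (ε (φ n))))) atTop
          (𝓝 ((hh P x - s) - 0)) := by
        refine Tendsto.sub (tendsto_const_nhds.sub hs) ?_
        refine squeeze_zero_norm (fun n => ?_) herr
        rw [Real.norm_eq_abs]
        exact hε (φ n)
      rw [sub_zero] at h2
      refine h2.congr fun n => ?_
      ring
    obtain ⟨ε0, h3⟩ := hC.mem_of_tendsto h1 (Eventually.of_forall fun n => mem_range_self _)
    exact ⟨ε0, by rw [h3]; ring⟩
  · intro ε
    have hC : IsClosed (hh P '' P) := (hP.1.image_of_continuousOn (cont_hh hP)).isClosed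
    choose x' hx' hx2 using fun n => (ht n).2 ε
    have h1 : Tendsto (fun n => hh P (x' (φ n))) atTop (𝓝 (s + val ε)) := by
      have h2 : Tendsto (fun n => (t (φ n) + val ε) + (hh P (x' (φ n)) - (t (φ n) + val ε))) atTop
          (𝓝 ((s + val ε) + 0)) := by
        refine Tendsto.add (hs.add tendsto_const_nhds) ?_
        refine squeeze_zero_norm (fun n => ?_) herr
        rw [Real.norm_eq_abs]
        exact hx2 (φ n)
      rw [add_zero] at h2
      refine h2.congr fun n => ?_
      ring
    exact hC.mem_of_tendsto h1 (Eventually.of_forall fun n => mem_image_of_mem _ (hx' (φ n)))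

end Pool.Agent.R221.TS
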