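import Mathlib
import Pool.Agent.R221.TS.Tr
set_option autoImplicit false

/-! Sums of shrinking compact sets: all compact perfect sets occur. -/

namespace Pool.Agent.R221.TS

open Set Filter Topology MeasureTheory

/-- the hypotheses on the sequence -/
structure Adm (K : ℕ → Set ℝ) : Prop where
  compact : ∀ i, IsCompact (K i)
  zero_mem : ∀ i, (0 : ℝ) ∈ K i
  nonneg : ∀ i, ∀ x ∈ K i, 0 ≤ x
  diam_pos : ∀ i, 0 < Metric.diam (K i)
  diam_tendsto : Tendsto (fun i => Metric.diam (K i)) atTop (𝓝 0)
  diam_summable : Summable fun i => Metric.diam (K i)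

/-- the set of sums -/
def sums (K : ℕ → Set ℝ) : Set ℝ := {s | ∃ x : ℕ → ℝ, (∀ i, x i ∈ K i) ∧ HasSum x s}

theorem realize {X : Set ℝ} (hne : X.Nonempty) (hX : Gd X) :
    ∃ K, Adm K ∧ Nonempty (X ≃ₜ sums K) := by
  classical
  set Y : Set ℝ := hh X '' X with hY
  have hYc : IsCompact Y := hX.1.image_of_continuousOn (cont_hh hX)
  set T : Set ℝ := {t | ∀ ε, t + val ε ∈ Y} with hT
  have hTcl : IsClosed T := by
    have : T = ⋂ ε, (fun t => t + val ε) ⁻¹' Y := by
      ext t; simp [hT]
    rw [this]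
    exact isClosed_iInter fun ε => hYc.isClosed.preimage (continuous_id.add continuous_const)
  have hv0 : val (fun _ => false) = 0 := by
    unfold val
    simp [dg]
  have hTY : T ⊆ Y := by
    intro t ht
    have := ht (fun _ => false)
    rwa [hv0, add_zero] at this
  have hTc : IsCompact T := hYc.of_isClosed_subset hTcl hTY
  have hcov : ∀ y ∈ Y, ∃ t ∈ T, ∃ ε, y = t + val ε := by
    rintro y ⟨x, hx, rfl⟩
    obtain ⟨t, ⟨ε, h1⟩, h2⟩ := transl hX hx
    exact ⟨t, h2, ε, h1⟩
  have hTne : T.Nonempty := by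
    obtain ⟨x, hx⟩ := hne
    obtain ⟨t, ht, _⟩ := hcov _ (mem_image_of_mem _ hx)
    exact ⟨t, ht⟩
  set t0 := sInf T with ht0
  have ht0T : t0 ∈ T := hTc.sInf_mem hTne
  have ht0le : ∀ t ∈ T, t0 ≤ t := fun t ht => csInf_le hTc.bddBelow ht
  set K : ℕ → Set ℝ := fun i => if i = 0 then ((fun t => t - t0) '' T) ∪ ((fun t => t - t0 + 1) '' T)
    else {0, (1 / 100) ^ i} with hK
  have K0 : K 0 = ((fun t => t - t0) '' T) ∪ ((fun t => t - t0 + 1) '' T) := by simp [hK]
  have Ks : ∀ i, i ≠ 0 → K i = {0, (1 / 100 : ℝ) ^ i} := fun i hi => by simp [hK, hi]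
  have hdi : ∀ i, i ≠ 0 → Metric.diam (K i) = (1 / 100) ^ i := by
    intro i hi
    rw [Ks i hi, Metric.diam_pair, Real.dist_eq, zero_sub, abs_neg, abs_of_pos (by positivity)]
  have hK0c : IsCompact (K 0) := by
    rw [K0]
    exact (hTc.image (by fun_prop)).union (hTc.image (by fun_prop))
  have z0 : (0 : ℝ) ∈ K 0 := by
    rw [K0]
    exact Or.inl ⟨t0, ht0T, by simp⟩
  have z1 : (1 : ℝ) ∈ K 0 := by
    rw [K0]
    exact Or.inr ⟨t0, ht0T, by simp⟩
  have hsum : Summable fun i => Metric.diam (K i) := by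
    refine (summable_nat_add_iff 1).1 ?_
    have : (fun i => Metric.diam (K (i + 1))) = fun i => (1 / 100 : ℝ) ^ (i + 1) := by
      funext i; exact hdi (i + 1) (by omega)
    rw [this]
    exact (summable_nat_add_iff 1).2 geo
  have hadm : Adm K := by
    refine ⟨?_, ?_, ?_, ?_, hsum.tendsto_atTop_zero, hsum⟩
    · intro i
      by_cases hi : i = 0
      · subst hi; exact hK0c
      · rw [Ks i hi]
        exact (Set.toFinite _).isCompact
    · intro i
      by_cases hi : i = 0
      · subst hi; exact z0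
      · rw [Ks i hi]; simp
    · intro i x hx
      by_cases hi : i = 0
      · subst hi
        rw [K0] at hx
        rcases hx with ⟨t, ht, rfl⟩ | ⟨t, ht, rfl⟩
        · have := ht0le t ht
          simp only; linarith
        · have := ht0le t ht
          simp only; linarith
      · rw [Ks i hi] at hx
        rcases hx with rfl | hx
        · exact le_rfl
        · rw [mem_singleton_iff] at hx
          rw [hx]; positivity
    · intro i
      by_cases hi : i = 0
      · subst hi
        have := Metric.dist_le_diam_of_mem hK0c.isBounded z0 z1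
        rw [Real.dist_eq] at this
        norm_num at this
        linarith
      · rw [hdi i hi]; positivity
  -- the set of sums
  have hsums : sums K = (fun y => y - t0) '' Y := by
    ext s
    constructor
    · rintro ⟨x, hx, hs⟩
      have h0 := hx 0
      have hxs : ∀ i, ∃ b : Bool, x (i + 1) = dg b * (1 / 100) ^ (i + 1) := by
        intro i
        have h1 := hx (i + 1)
        rw [Ks (i + 1) (by omega)] at h1
        rcases h1 with h1 | h1
        · exact ⟨false, by rw [h1]; simp [dg]⟩
        · rw [mem_singleton_iff] at h1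
          exact ⟨true, by rw [h1]; simp [dg]⟩
      choose b hb using hxs
      have h0' : ∃ t ∈ T, ∃ b0 : Bool, x 0 = t - t0 + dg b0 := by
        rw [K0] at h0
        rcases h0 with ⟨t, ht, h0⟩ | ⟨t, ht, h0⟩
        · exact ⟨t, ht, false, by rw [← h0]; simp [dg]⟩
        · exact ⟨t, ht, true, by rw [← h0]; simp [dg]⟩
      obtain ⟨t, ht, b0, h0⟩ := h0'
      set ε : ℕ → Bool := fun i => if i = 0 then b0 else b (i - 1) with hε
      have e0 : ε 0 = b0 := by simp [hε]
      have es : ∀ i, ε (i + 1) = b i := fun i => by simp [hε]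
      refine ⟨t + val ε, ht ε, ?_⟩
      have hsv : ∑' i, x i = s := hs.tsum_eq
      have h3 : ∑' i, x i = x 0 + ∑' i, x (i + 1) := hs.summable.tsum_eq_zero_add
      have h4 : val ε = dg b0 + ∑' i, x (i + 1) := by
        unfold val
        rw [(summ ε).tsum_eq_zero_add, e0, pow_zero, mul_one]
        congr 1
        apply tsum_congr
        intro i
        rw [es, hb]
      simp only
      rw [h4, ← hsv, h3, h0]
      ring
    · rintro ⟨y, hy, rfl⟩
      obtain ⟨t, ht, ε, rfl⟩ := hcov y hy
      refine ⟨fun i => dg (ε i) * (1 / 100) ^ i + if i = 0 then t - t0 else 0, ?_, ?_⟩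
      · intro i
        by_cases hi : i = 0
        · subst hi
          rw [K0]
          simp only [if_true, pow_zero, mul_one]
          rcases hb : ε 0 with _ | _
          · left
            refine ⟨t, ht, by simp [dg]⟩
          · right
            refine ⟨t, ht, by simp [dg]; ring⟩
        · rw [Ks i hi]
          simp only [if_neg hi, add_zero]
          rcases hb : ε i with _ | _
          · left; simp [dg]
          · right; simp [dg]
      · have h1 := (summ ε).hasSum
        have h2 : HasSum (fun i : ℕ => if i = 0 then t - t0 else 0) (t - t0) := hasSum_ite_eq 0 _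
        have h3 := h1.add h2
        have e : t + val ε - t0 = ∑' i, dg (ε i) * (1 / 100) ^ i + (t - t0) := by
          rw [show ∑' i, dg (ε i) * (1 / 100) ^ i = val ε from rfl]
          ring
        simp only
        rw [e]
        exact h3
  refine ⟨K, hadm, ?_⟩
  have hmem : ∀ x : X, hh X x - t0 ∈ sums K := fun x => by
    rw [hsums]
    exact ⟨hh X x, mem_image_of_mem _ x.2, rfl⟩
  haveI : CompactSpace X := isCompact_iff_compactSpace.1 hX.1
  let f : X → sums K := fun x => ⟨hh X x - t0, hmem x⟩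
  have hf : Continuous f := by
    refine Continuous.subtype_mk ?_ _
    exact ((continuousOn_iff_continuous_restrict.1 (cont_hh hX))).sub continuous_const
  have hbij : Function.Bijective f := by
    constructor
    · intro x x' h
      have h1 : hh X x - t0 = hh X x' - t0 := congrArg Subtype.val h
      exact Subtype.ext (inj_hh hX x.2 x'.2 (by linarith))
    · rintro ⟨s, hs⟩
      have hs' := hs
      rw [hsums] at hs'
      obtain ⟨y, ⟨x, hx, rfl⟩, rfl⟩ := hs'
      exact ⟨⟨x, hx⟩, rfl⟩
  exact ⟨Continuous.homeoOfEquivCompactToT2 (f := Equiv.ofBijective f hbij) hf⟩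

/-! ### the known direction -/

lemma le_diam {K : ℕ → Set ℝ} (hK : Adm K) {i : ℕ} {x : ℝ} (hx : x ∈ K i) : x ≤ Metric.diam (K i) := by
  have := Metric.dist_le_diam_of_mem (hK.compact i).isBounded hx (hK.zero_mem i)
  rw [Real.dist_eq, sub_zero] at this
  exact (le_abs_self x).trans this

lemma summ_of {K : ℕ → Set ℝ} (hK : Adm K) {x : ℕ → ℝ} (hx : ∀ i, x i ∈ K i) : Summable x :=
  Summable.of_nonneg_of_le (fun i => hK.nonneg i _ (hx i)) (fun i => le_diam hK (hx i))
    hK.diam_summable

lemma sums_eq {K : ℕ → Set ℝ} (hK : Adm K) :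
    sums K = (fun x : ℕ → ℝ => ∑' i, x i) '' {x | ∀ i, x i ∈ K i} := by
  ext s
  constructor
  · rintro ⟨x, hx, hs⟩
    exact ⟨x, hx, hs.tsum_eq⟩
  · rintro ⟨x, hx, rfl⟩
    exact ⟨x, hx, (summ_of hK hx).hasSum⟩

lemma sums_compact {K : ℕ → Set ℝ} (hK : Adm K) : IsCompact (sums K) := by
  rw [sums_eq hK]
  have h1 : IsCompact {x : ℕ → ℝ | ∀ i, x i ∈ K i} := by
    have : {x : ℕ → ℝ | ∀ i, x i ∈ K i} = Set.univ.pi K := by
      ext x; simp
    rw [this]
    exact isCompact_univ_pi hK.compact
  refine h1.image_of_continuousOn ?_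
  refine continuousOn_tsum (fun i => (continuous_apply i).continuousOn) hK.diam_summable ?_
  intro i x hx
  rw [Real.norm_eq_abs, abs_of_nonneg (hK.nonneg i _ (hx i))]
  exact le_diam hK (hx i)

lemma sums_nonempty {K : ℕ → Set ℝ} (hK : Adm K) : (sums K).Nonempty :=
  ⟨0, fun _ => 0, fun i => hK.zero_mem i, hasSum_zero⟩

lemma sums_preperfect {K : ℕ → Set ℝ} (hK : Adm K) : Preperfect (sums K) := by
  classical
  rintro s ⟨x, hx, hs⟩
  rw [accPt_iff_frequently, Metric.nhds_basis_ball.frequently_iff]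
  intro r hr
  obtain ⟨n, hn⟩ := ((hK.diam_tendsto.eventually (gt_mem_nhds hr))).exists
  -- another element of `K n`
  have hw : ∃ w ∈ K n, w ≠ x n := by
    by_contra hcon
    push Not at hcon
    have h1 : K n ⊆ {x n} := fun w hw => hcon w hw
    have h2 : Metric.diam (K n) = 0 := Metric.diam_subsingleton (Set.subsingleton_singleton.anti h1)
    exact (hK.diam_pos n).ne' h2
  obtain ⟨w, hw, hwx⟩ := hw
  have hupd : HasSum (Function.update x n w) (w - x n + s) := hs.update n w
  refine ⟨w - x n + s, ?_, ?_, Function.update x n w, ?_, hupd⟩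
  · rw [Metric.mem_ball, Real.dist_eq, add_sub_cancel_right, ← Real.dist_eq]
    exact (Metric.dist_le_diam_of_mem (hK.compact n).isBounded hw (hx n)).trans_lt hn
  · intro h
    apply hwx
    linarith
  · intro i
    by_cases hi : i = n
    · subst hi
      rw [Function.update_self]
      exact hw
    · rw [Function.update_of_ne hi]
      exact hx i

lemma preperfect_of_homeo {X S : Set ℝ} (e : X ≃ₜ S) (hS : Preperfect S) : Preperfect X := by
  intro x hx
  rw [accPt_iff_frequently]
  rw [frequently_nhds_iff]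
  intro U hxU hU
  have hV : IsOpen (e.symm ⁻¹' (Subtype.val ⁻¹' U : Set X)) :=
    (hU.preimage continuous_subtype_val).preimage e.symm.continuous
  obtain ⟨V, hV1, hV2⟩ := isOpen_induced_iff.1 hV
  have hmem : ((e ⟨x, hx⟩ : S) : ℝ) ∈ V := by
    have : e ⟨x, hx⟩ ∈ (Subtype.val ⁻¹' V : Set S) := by
      rw [hV2]
      simp [hxU]
    exact this
  have h1 := hS _ (e ⟨x, hx⟩).2
  rw [accPt_iff_frequently, frequently_nhds_iff] at h1
  obtain ⟨y, hy1, hy2, hy3⟩ := h1 V hmem hV1
  have h2 : (⟨y, hy3⟩ : S) ∈ e.symm ⁻¹' (Subtype.val ⁻¹' U : Set X) := by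
    rw [← hV2]; exact hy1
  refine ⟨(e.symm ⟨y, hy3⟩ : X), h2, ?_, (e.symm ⟨y, hy3⟩).2⟩
  intro h
  apply hy2
  have h3 : e.symm ⟨y, hy3⟩ = ⟨x, hx⟩ := Subtype.ext h
  have h4 : (⟨y, hy3⟩ : S) = e ⟨x, hx⟩ := by rw [← h3, Homeomorph.apply_symm_apply]
  exact congrArg Subtype.val h4

theorem main (X : Set ℝ) :
    (∃ K, Adm K ∧ Nonempty (X ≃ₜ sums K)) ↔ X.Nonempty ∧ IsCompact X ∧ Preperfect X := by
  constructor
  · rintro ⟨K, hK, ⟨e⟩⟩
    refine ⟨?_, ?_, preperfect_of_homeo e (sums_preperfect hK)⟩
    · obtain ⟨s, hs⟩ := sums_nonempty hK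
      exact ⟨_, (e.symm ⟨s, hs⟩).2⟩
    · haveI : CompactSpace (sums K) := isCompact_iff_compactSpace.1 (sums_compact hK)
      haveI : CompactSpace X := e.symm.compactSpace
      exact isCompact_iff_compactSpace.2 inferInstance
  · rintro ⟨h1, h2, h3⟩
    exact realize h1 ⟨h2, h3⟩

end Pool.Agent.R221.TS
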